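import Mathlib
import Pool.Agent.Run7.h173.Main

/-!
# The rigid synchrony conjecture

For every network, every admissible `C¹` vector field `f` and every hyperbolic periodic orbit of
`x' = f(x)`, every rigid synchrony pattern of the orbit is balanced.

Here `cmp` is an arbitrary relation between nodes that contains type equality; the pattern relates
`c` and `d` when `cmp c d` and `x_c(t) = x_d(t)` for all `t`.  With `cmp` equal to type equality
this is the pattern among nodes of equal type, with `cmp` always true it is the pattern among all
nodes.
-/

namespace Run7.h173.Withdrawn

open Run7.h173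

theorem result (G : Network) (W : Type*) [NormedAddCommGroup W] [NormedSpace ℝ W]
    [FiniteDimensional ℝ W] (P : StateSpaces G W)
    (f : P.State → P.State) (hf : P.IsAdmissible f)
    (x : ℝ → P.State) (T : ℝ) (hx : IsPeriodicOrbit f x T) (hh : IsHyperbolic f x T)
    (cmp : G.Node → G.Node → Prop) (hcmp : ∀ c d, G.sameNodeType c d → cmp c d)
    (hr : P.IsRigid cmp f x T) :
    G.IsBalanced (P.Pattern cmp x) :=
  rigid_balanced P hf hx hh cmp hcmp hr

end Run7.h173.Withdrawn
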